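import Pool.Agent.Y63.NV.Stm2

/-!
# Reduction maps from the algebraic integers to the algebraic closure of `F_p`
-/

set_option autoImplicit false

open Pool.Agent.Y63.NV

namespace Pool.Agent.Y44.NV

theorem not_isUnit (p : ℕ) (hp : p.Prime) : ¬ IsUnit ((p : ℕ) : integralClosure ℤ ℂ) := by
  intro hu
  obtain ⟨u, hu⟩ := isUnit_iff_exists_inv.mp hu
  have h1 : (p : ℂ) * (u : ℂ) = 1 := by
    have := congrArg (Subtype.val) hu
    simpa using this
  have hp0 : (p : ℂ) ≠ 0 := by exact_mod_cast hp.ne_zero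
  have h2 : (u : ℂ) = algebraMap ℚ ℂ (1 / (p : ℚ)) := by
    rw [eq_comm]
    simp
    field_simp
    exact h1.symm
  have h3 : IsIntegral ℤ (u : ℂ) := u.2
  rw [h2, isIntegral_algebraMap_iff (algebraMap ℚ ℂ).injective] at h3
  obtain ⟨n, hn⟩ := IsIntegrallyClosed.isIntegral_iff.mp h3
  have h4 : (n : ℚ) * (p : ℚ) = 1 := by
    have hp0' : (p : ℚ) ≠ 0 := by exact_mod_cast hp.ne_zero
    have : (n : ℚ) = 1 / (p : ℚ) := hn
    rw [this]
    field_simp
  have h5 : n * (p : ℤ) = 1 := by exact_mod_cast h4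
  have h6 : (p : ℤ) ∣ 1 := ⟨n, by rw [mul_comm]; exact h5.symm⟩
  have h7 : p ∣ 1 := by exact_mod_cast h6
  exact hp.one_lt.ne' (Nat.dvd_one.mp h7)

theorem lift_exists (p : ℕ) [Fact p.Prime] (k : Type) [Field k] [Algebra (ZMod p) k]
    [Algebra.IsIntegral (ZMod p) k] : Nonempty (k →+* AlgebraicClosure (ZMod p)) :=
  ⟨(IsAlgClosed.lift (R := ZMod p) (S := k) (M := AlgebraicClosure (ZMod p))).toRingHom⟩

theorem red : S_RED := by
  intro p hp
  have hnu := not_isUnit p hp.out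
  obtain ⟨m, hm, hle⟩ := Ideal.exists_le_maximal
    (Ideal.span {((p : ℕ) : integralClosure ℤ ℂ)}) (by
      rw [Ne, Ideal.span_singleton_eq_top]; exact hnu)
  let k := integralClosure ℤ ℂ ⧸ m
  let fk : Field k := Ideal.Quotient.field m
  have h0 : ((p : ℕ) : k) = 0 := by
    have h1 : ((p : ℕ) : integralClosure ℤ ℂ) ∈ m := hle (Ideal.mem_span_singleton_self _)
    have h2 := Ideal.Quotient.eq_zero_iff_mem.mpr h1
    rw [← h2, map_natCast]
  have hc : CharP k p := ringChar.of_eq (CharP.ringChar_of_prime_eq_zero hp.out h0)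
  let al : Algebra (ZMod p) k := ZMod.algebra k p
  have hint : Algebra.IsIntegral (ZMod p) k := by
    constructor
    intro x
    obtain ⟨y, rfl⟩ := Ideal.Quotient.mk_surjective x
    have h1 : IsIntegral ℤ y := by
      obtain ⟨y, hy⟩ := y
      obtain ⟨q, hq, hq'⟩ := hy
      refine ⟨q, hq, ?_⟩
      apply Subtype.ext
      simpa [Polynomial.eval₂_eq_sum_range] using hq'
    have h2 : IsIntegral ℤ (Ideal.Quotient.mk m y) := h1.map (Ideal.Quotient.mk m).toIntAlgHom
    exact h2.tower_top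
  obtain ⟨f⟩ := lift_exists p k
  exact ⟨f.comp (Ideal.Quotient.mk m)⟩

end Pool.Agent.Y44.NV
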