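import Pool.Agent.Y63.NV.Stm2
import Pool.Agent.Y63.AWC.Wt

/-!
# `p`-regular classes and normal subgroups of index `p`
-/

open scoped BigOperators Classical

noncomputable section

namespace Pool.Agent.Y44.NV

open Pool.Agent.Y63.NV Pool.Agent.Y63.AWC

/-- the number of classes with an invariant property as a sum over elements -/
theorem card_mul_classes (G : Type) [Group G] [Fintype G] (P : G → Prop)
    (hP : ∀ c a : G, P a → P (c * a * c⁻¹)) :
    Nat.card G * Nat.card {c : ConjClasses G // ∃ x : G, ConjClasses.mk x = c ∧ P x} =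
      ∑ x : G, b01 (P x) * Nat.card {y : G // x * y = y * x} := by
  have hr : ∀ a b : G, (IsConj.setoid G).r a b → (P a ↔ P b) := by
    intro a b h
    obtain ⟨c, rfl⟩ := isConj_iff.mp h
    refine ⟨hP c a, fun h1 => ?_⟩
    have h2 := hP c⁻¹ _ h1
    have h3 : c⁻¹ * (c * a * c⁻¹) * c⁻¹⁻¹ = a := by group
    rwa [h3] at h2
  have h := orbit_sum (G := ConjAct G) (IsConj.setoid G) (by
    intro a b
    change IsConj a b ↔ _
    rw [isConj_iff]
    rfl) (fun x : G => b01 (P x)) (fun a b hab => b01_congr (hr a b hab))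
  have h2 : ∑ᶠ c : Quotient (IsConj.setoid G), b01 (P (c.out : G)) =
      Nat.card {c : ConjClasses G // ∃ x : G, ConjClasses.mk x = c ∧ P x} := by
    have hfin : Finite (Quotient (IsConj.setoid G)) := inferInstance
    rw [finsum_ite_eq_card (fun c : Quotient (IsConj.setoid G) => P (c.out : G))]
    refine Nat.card_congr (Equiv.subtypeEquivRight fun c => ?_)
    constructor
    · intro h3
      exact ⟨c.out, Quotient.out_eq c, h3⟩
    · rintro ⟨x, hx, h3⟩
      have h4 : IsConj x c.out := by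
        have : (Quotient.mk (IsConj.setoid G) x) = Quotient.mk (IsConj.setoid G) c.out :=
          hx.trans (Quotient.out_eq c).symm
        exact Quotient.eq.mp this
      exact (hr _ _ h4).mp h3
  rw [h2] at h
  have hcard : Nat.card (ConjAct G) = Nat.card G := rfl
  rw [hcard] at h
  rw [h]
  have h5 : ∀ x : G, Nat.card (MulAction.stabilizer (ConjAct G) x) =
      Nat.card {y : G // x * y = y * x} := by
    intro x
    refine Nat.card_congr (Equiv.subtypeEquiv (ConjAct.ofConjAct (G := G)).toEquiv fun y => ?_)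
    rw [MulAction.mem_stabilizer_iff, ConjAct.smul_def]
    change _ ↔ x * (ConjAct.ofConjAct y) = (ConjAct.ofConjAct y) * x
    rw [mul_inv_eq_iff_eq_mul, eq_comm]
  refine Finset.sum_congr rfl fun x _ => ?_
  rw [h5, mul_comm]

variable {p : ℕ} {Γ : Type} [Group Γ]

theorem orderOf_conj' (c a : Γ) : orderOf (c * a * c⁻¹) = orderOf a := by
  have h1 := orderOf_injective (MulAut.conj c).toMonoidHom (MulAut.conj c).injective a
  simpa using h1

/-- `p`-regular elements lie in a normal subgroup of index `p` -/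
theorem mem_of_regular [Fact p.Prime] {G : Subgroup Γ} [G.Normal]
    (hi : Nat.card (Γ ⧸ G) = p) {x : Γ} (hx : ¬ p ∣ orderOf x) : x ∈ G := by
  have h1 : ((x : Γ ⧸ G)) ^ p = 1 := by
    rw [← hi]
    have : Finite (Γ ⧸ G) := Nat.finite_of_card_ne_zero (hi ▸ (Fact.out : p.Prime).ne_zero)
    exact pow_card_eq_one'
  have h2 : orderOf (x : Γ ⧸ G) ∣ p := orderOf_dvd_of_pow_eq_one h1
  have h3 : orderOf (x : Γ ⧸ G) ∣ orderOf x := orderOf_map_dvd (QuotientGroup.mk' G) x
  rcases (Nat.dvd_prime Fact.out).mp h2 with h4 | h4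
  · have := orderOf_eq_one_iff.mp h4
    exact (QuotientGroup.eq_one_iff x).mp this
  · exact absurd (h4 ▸ h3) hx

/-- if an element outside `G` commutes with `x` then all conjugates are conjugate under `G` -/
theorem exists_conj [Fact p.Prime] {G : Subgroup Γ} [G.Normal]
    (hi : Nat.card (Γ ⧸ G) = p) {x z : Γ} (hz : z ∉ G) (hzx : x * z = z * x) (h : Γ) :
    ∃ n ∈ G, h * x * h⁻¹ = n * x * n⁻¹ := by
  have hne : (z : Γ ⧸ G) ≠ 1 := fun h1 => hz ((QuotientGroup.eq_one_iff z).mp h1)
  have hmem : (h : Γ ⧸ G) ∈ Subgroup.zpowers (z : Γ ⧸ G) :=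
    mem_zpowers_of_prime_card hi hne
  obtain ⟨k, hk⟩ := hmem
  have hk' : ((z ^ k : Γ) : Γ ⧸ G) = (h : Γ ⧸ G) := by
    rw [← hk]; rfl
  have h1 : h * (z ^ k)⁻¹ ∈ G := by
    rw [← QuotientGroup.eq_one_iff]
    rw [QuotientGroup.mk_mul, QuotientGroup.mk_inv, hk', mul_inv_cancel]
  have hc : Commute x (z ^ k) := (show Commute x z from hzx).zpow_right k
  refine ⟨_, h1, ?_⟩
  have h2 : (z ^ k)⁻¹ * x * (z ^ k) = x := by
    rw [mul_assoc, hc.eq, ← mul_assoc, inv_mul_cancel, one_mul]
  calc h * x * h⁻¹ = h * ((z ^ k)⁻¹ * x * (z ^ k)) * h⁻¹ := by rw [h2]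
    _ = h * (z ^ k)⁻¹ * x * (h * (z ^ k)⁻¹)⁻¹ := by group

theorem card_cent (x : Γ) : Nat.card {y : Γ // x * y = y * x} =
    Nat.card (Subgroup.centralizer ({x} : Set Γ)) := by
  refine Nat.card_congr (Equiv.subtypeEquivRight fun y => ?_)
  rw [Subgroup.mem_centralizer_singleton_iff]
  exact eq_comm

theorem card_cent_inf (G : Subgroup Γ) (x : Γ) : Nat.card {y : Γ // y ∈ G ∧ x * y = y * x} =
    Nat.card ↥(G ⊓ Subgroup.centralizer ({x} : Set Γ)) := by
  refine Nat.card_congr (Equiv.subtypeEquivRight fun y => ?_)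
  rw [Subgroup.mem_inf, Subgroup.mem_centralizer_singleton_iff]
  exact and_congr_right fun _ => eq_comm

/-- the centraliser of an element with invariant class -/
theorem card_of_mem [Finite Γ] {G : Subgroup Γ} [G.Normal]
    (hi : Nat.card (Γ ⧸ G) = p) {x : Γ} (hx : ∀ h : Γ, ∃ n ∈ G, h * x * h⁻¹ = n * x * n⁻¹) :
    Nat.card {y : Γ // x * y = y * x} = p * Nat.card {y : Γ // y ∈ G ∧ x * y = y * x} := by
  rw [card_cent, card_cent_inf]
  set C := Subgroup.centralizer ({x} : Set Γ) with hC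
  have hsup : C ⊔ G = ⊤ := by
    rw [eq_top_iff]
    intro h _
    obtain ⟨n, hn, hh⟩ := hx h
    have h1 : n⁻¹ * h ∈ C := by
      rw [hC, Subgroup.mem_centralizer_singleton_iff]
      have h2 : h * x = n * x * n⁻¹ * h := by rw [← hh]; group
      calc n⁻¹ * h * x = n⁻¹ * (h * x) := by group
        _ = n⁻¹ * (n * x * n⁻¹ * h) := by rw [h2]
        _ = x * (n⁻¹ * h) := by group
    have h3 : h = n * (n⁻¹ * h) := by group
    rw [h3]
    exact Subgroup.mul_mem _ (Subgroup.mem_sup_right hn) (Subgroup.mem_sup_left h1)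
  have h1 : G.relIndex C = p := by
    rw [← Subgroup.relIndex_sup_right, hsup, Subgroup.relIndex_top_right]
    exact hi
  have h2 : Nat.card (G.subgroupOf C) * (G.subgroupOf C).index = Nat.card C :=
    Subgroup.card_mul_index _
  have h3 : Nat.card (G.subgroupOf C) = Nat.card ↥(G ⊓ C) := by
    rw [← Subgroup.inf_subgroupOf_right]
    exact Nat.card_congr (Subgroup.subgroupOfEquivOfLe inf_le_right).toEquiv
  have h4 : (G.subgroupOf C).index = p := h1
  rw [← h2, h3, h4, mul_comm]

theorem card_of_not_mem [Fact p.Prime] {G : Subgroup Γ} [G.Normal]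
    (hi : Nat.card (Γ ⧸ G) = p) {x : Γ}
    (hx : ¬ ∀ h : Γ, ∃ n ∈ G, h * x * h⁻¹ = n * x * n⁻¹) :
    Nat.card {y : Γ // x * y = y * x} = Nat.card {y : Γ // y ∈ G ∧ x * y = y * x} := by
  refine Nat.card_congr (Equiv.subtypeEquivRight fun y => ?_)
  refine ⟨fun h => ⟨?_, h⟩, fun h => h.2⟩
  by_contra hy
  exact hx fun g => exists_conj hi hy h g

theorem pel : S_PEL := by
  intro p hp Γ _ _ G _ hi
  have hΓ : Fintype Γ := Fintype.ofFinite Γ
  have hG : Fintype G := Fintype.ofFinite G
  have hcard : Nat.card Γ = p * Nat.card G := by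
    rw [← G.card_mul_index, Subgroup.index, hi, mul_comm]
  -- the three counts
  have h1 : Nat.card Γ * numRegularClasses p Γ = ∑ x : Γ,
      b01 (¬ p ∣ orderOf x) * Nat.card {y : Γ // x * y = y * x} :=
    card_mul_classes Γ (fun x => ¬ p ∣ orderOf x) fun c a h => by rwa [orderOf_conj']
  have h2 : Nat.card Γ * invReg p G = ∑ x : Γ,
      b01 (x ∈ S0 p G ⊤) * Nat.card {y : Γ // x * y = y * x} := by
    have h3 := card_mul_classes Γ (fun x => x ∈ S0 p G ⊤) (by
      rintro c a ⟨ha1, ha2, ha3⟩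
      refine ⟨Subgroup.Normal.conj_mem inferInstance a ha1 c, by rwa [orderOf_conj'], ?_⟩
      intro h _
      obtain ⟨n, hn, hn'⟩ := ha3 (h * c) (Subgroup.mem_top _)
      obtain ⟨m, hm, hm'⟩ := ha3 c (Subgroup.mem_top _)
      refine ⟨n * m⁻¹, G.mul_mem hn (G.inv_mem hm), ?_⟩
      have e1 : h * (c * a * c⁻¹) * h⁻¹ = h * c * a * (h * c)⁻¹ := by group
      rw [e1, hn', hm']
      group)
    rw [← h3]
    unfold invReg
    congr 1
    refine Nat.card_congr (Equiv.subtypeEquivRight fun C => ?_)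
    constructor
    · rintro ⟨x, hx, hC⟩; exact ⟨x, hC, hx⟩
    · rintro ⟨x, hC, hx⟩; exact ⟨x, hx, hC⟩
  have h3 : Nat.card G * numRegularClasses p G = ∑ x : Γ,
      b01 (¬ p ∣ orderOf x) * Nat.card {y : Γ // y ∈ G ∧ x * y = y * x} := by
    have h4 := card_mul_classes G (fun x => ¬ p ∣ orderOf x)
      fun c a h => by rwa [orderOf_conj']
    refine h4.trans ?_
    have h5 : ∀ x : G, b01 (¬ p ∣ orderOf x) * Nat.card {y : G // x * y = y * x} =
        (fun x : Γ => b01 (¬ p ∣ orderOf x) *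
          Nat.card {y : Γ // y ∈ G ∧ x * y = y * x}) (x : Γ) := by
      intro x
      beta_reduce
      rw [Subgroup.orderOf_coe]
      congr 1
      exact Nat.card_congr
          { toFun := fun y => ⟨y.1.1, y.1.2, congrArg Subtype.val y.2⟩
            invFun := fun y => ⟨⟨y.1, y.2.1⟩, Subtype.ext y.2.2⟩
            left_inv := fun y => rfl
            right_inv := fun y => rfl }
    rw [Finset.sum_congr rfl fun x _ => h5 x]
    rw [← Finset.sum_subtype (p := fun x : Γ => x ∈ G) (Finset.univ.filter fun x : Γ => x ∈ G)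
      (by simp) (fun x : Γ => b01 (¬ p ∣ orderOf x) *
        Nat.card {y : Γ // y ∈ G ∧ x * y = y * x})]
    rw [Finset.sum_filter]
    refine Finset.sum_congr rfl fun x _ => ?_
    by_cases hx : ¬ p ∣ orderOf x
    · rw [if_pos (mem_of_regular hi hx)]
    · rw [b01_neg hx]
      simp
  have hkey : p * (Nat.card Γ * numRegularClasses p Γ) =
      p * (Nat.card G * numRegularClasses p G) + (p - 1) * (Nat.card Γ * invReg p G) := by
    rw [h1, h2, h3, Finset.mul_sum, Finset.mul_sum, Finset.mul_sum, ← Finset.sum_add_distrib]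
    refine Finset.sum_congr rfl fun x _ => ?_
    by_cases hx : ¬ p ∣ orderOf x
    · rw [b01_pos hx]
      by_cases hx2 : ∀ h : Γ, ∃ n ∈ G, h * x * h⁻¹ = n * x * n⁻¹
      · rw [b01_pos (show x ∈ S0 p G ⊤ from ⟨mem_of_regular hi hx, hx, fun h _ => hx2 h⟩),
          card_of_mem hi hx2]
        obtain ⟨q, rfl⟩ : ∃ q, p = q + 1 := ⟨p - 1, (Nat.succ_pred_prime hp.out).symm⟩
        rw [Nat.add_sub_cancel]
        ring
      · rw [b01_neg (fun h : x ∈ S0 p G ⊤ => hx2 fun g => h.2.2 g (Subgroup.mem_top _)),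
          card_of_not_mem hi hx2]
        simp
    · rw [b01_neg hx, b01_neg (fun h : x ∈ S0 p G ⊤ => hx h.2.1)]
      simp
  have hpos : 0 < Nat.card Γ := Nat.card_pos
  refine Nat.eq_of_mul_eq_mul_left hpos ?_
  calc Nat.card Γ * (p * numRegularClasses p Γ) = p * (Nat.card Γ * numRegularClasses p Γ) := by
        ring
    _ = p * (Nat.card G * numRegularClasses p G) + (p - 1) * (Nat.card Γ * invReg p G) := hkey
    _ = Nat.card Γ * (numRegularClasses p G + (p - 1) * invReg p G) := by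
        rw [mul_add, hcard]; ring

end Pool.Agent.Y44.NV
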